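import Pool.Agent.H354.RD.Defs

set_option autoImplicit false

namespace H354RD

open MulOpposite

section
variable {R : Type} [Ring R]

/-- the right submodule generated by the columns of `A` -/
def colSpan {m n : ℕ} (A : Matrix (Fin m) (Fin n) R) : Submodule Rᵐᵒᵖ (Fin m → R) where
  carrier := {x | ∃ t : Fin n → R, ∀ i, x i = ∑ j, A i j * t j}
  add_mem' := by
    rintro x y ⟨t, ht⟩ ⟨t', ht'⟩
    refine ⟨fun j => t j + t' j, fun i => ?_⟩
    simp only [Pi.add_apply, ht, ht', mul_add, Finset.sum_add_distrib]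
  zero_mem' := ⟨fun _ => 0, fun i => by simp⟩
  smul_mem' := by
    rintro c x ⟨t, ht⟩
    refine ⟨fun j => t j * unop c, fun i => ?_⟩
    simp only [Pi.smul_apply, ht]
    rw [← op_unop c, op_smul_eq_mul, Finset.sum_mul]
    simp [mul_assoc]

theorem mem_colSpan {m n : ℕ} (A : Matrix (Fin m) (Fin n) R) (x : Fin m → R) :
    x ∈ colSpan A ↔ ∃ t : Fin n → R, ∀ i, x i = ∑ j, A i j * t j := Iff.rfl

variable (M : Type) [AddCommGroup M] [Module Rᵐᵒᵖ M]

/-- pairs `(r, h)` with `h r = 0` -/
abbrev Pr : Type := {p : R × M // op p.1 • p.2 = 0}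

/-- `x ↦ h x` -/
def mulMap (h : M) : R →ₗ[Rᵐᵒᵖ] M where
  toFun x := op x • h
  map_add' x y := by rw [op_add, add_smul]
  map_smul' c x := by
    rw [← op_unop c, op_smul_eq_mul, op_mul, mul_smul]
    simp

/-- the presentation -/
noncomputable def prs : (Pr (R := R) M →₀ R) →ₗ[Rᵐᵒᵖ] M :=
  Finsupp.lsum ℕ (fun p : Pr (R := R) M => mulMap M p.1.2)

theorem prs_single (p : Pr (R := R) M) (x : R) :
    prs M (Finsupp.single p x) = op x • p.1.2 := by
  unfold prs
  rw [Finsupp.lsum_single]
  rfl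

theorem prs_apply (f : Pr (R := R) M →₀ R) :
    prs M f = f.sum (fun p x => op x • p.1.2) := rfl

/-- the functions with `f(r,h) ∈ rR` -/
def D0 : Submodule Rᵐᵒᵖ (Pr (R := R) M →₀ R) where
  carrier := {f | ∀ p, ∃ t : R, f p = p.1.1 * t}
  add_mem' := by
    intro f g hf hg p
    obtain ⟨t, ht⟩ := hf p
    obtain ⟨t', ht'⟩ := hg p
    exact ⟨t + t', by rw [Finsupp.add_apply, ht, ht', mul_add]⟩
  zero_mem' := fun p => ⟨0, by simp⟩
  smul_mem' := by
    intro c f hf p
    obtain ⟨t, ht⟩ := hf p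
    refine ⟨t * unop c, ?_⟩
    rw [Finsupp.smul_apply, ht, ← op_unop c, op_smul_eq_mul, mul_assoc]
    simp

theorem D0_le : ∀ f ∈ D0 (R := R) M, prs M f = 0 := by
  intro f hf
  rw [prs_apply]
  refine Finset.sum_eq_zero fun p _ => ?_
  obtain ⟨t, ht⟩ := hf p
  simp only
  rw [ht, op_mul, mul_smul, p.2, smul_zero]

/-- the kernel of the presentation modulo `D0` -/
noncomputable def NN : Submodule Rᵐᵒᵖ ((Pr (R := R) M →₀ R) ⧸ D0 (R := R) M) :=
  (LinearMap.ker (prs (R := R) M)).map (D0 (R := R) M).mkQ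

theorem NN_rdpure : RDPure R (NN (R := R) M) := by
  classical
  intro r x hx
  obtain ⟨f, rfl⟩ := (D0 (R := R) M).mkQ_surjective x
  obtain ⟨κ, hκ, hκ2⟩ := hx
  have h0 : prs M (op r • f) = 0 := by
    have h1 : op r • f - κ ∈ D0 (R := R) M := by
      have : (D0 (R := R) M).mkQ (op r • f - κ) = 0 := by
        rw [map_sub, hκ2, map_smul, sub_self]
      rwa [Submodule.mkQ_apply, Submodule.Quotient.mk_eq_zero] at this
    have h2 := D0_le M _ h1
    rw [map_sub] at h2
    have h3 : prs M κ = 0 := hκ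
    rw [h3, sub_zero] at h2
    exact h2
  have h4 : op r • prs M f = 0 := by rw [← map_smul]; exact h0
  let p : Pr (R := R) M := ⟨(r, prs M f), h4⟩
  refine ⟨(D0 (R := R) M).mkQ (f - Finsupp.single p 1), ⟨f - Finsupp.single p 1, ?_, rfl⟩, ?_⟩
  · show prs M (f - Finsupp.single p 1) = 0
    rw [map_sub, prs_single, op_one, one_smul]
    exact sub_self _
  · rw [← map_smul, ← map_smul, smul_sub, map_sub, sub_eq_self, Submodule.mkQ_apply,
      Submodule.Quotient.mk_eq_zero]
    intro q
    rw [Finsupp.smul_single, op_smul_eq_mul, one_mul]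
    by_cases hq : q = p
    · subst hq
      exact ⟨1, by rw [Finsupp.single_eq_same]; simp [p]⟩
    · exact ⟨0, by rw [Finsupp.single_eq_of_ne hq, mul_zero]⟩

end

section
variable {R : Type} [Ring R]

/-- Over an RD ring, the cokernel of `A` (columns act on the right) with `wA = 0 ⟹ w = 0` is a
direct summand of a finite direct sum of modules `R/r_iR`, `r_i ≠ 0`: the resulting identities. -/
theorem cert (hRD : IsRD R) {m n : ℕ} (A : Matrix (Fin m) (Fin n) R)
    (hA : ∀ w : Fin m → R, (∀ j, ∑ i, w i * A i j = 0) → ∀ i, w i = 0) :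
    ∃ (k : ℕ) (r : Fin k → R) (U : Matrix (Fin m) (Fin k) R) (X : Matrix (Fin k) (Fin m) R)
      (s : Matrix (Fin n) (Fin m) R) (z : Matrix (Fin k) (Fin n) R) (w : Matrix (Fin n) (Fin k) R),
      (∀ i, r i ≠ 0) ∧ U * X + A * s = 1 ∧ X * A = Matrix.diagonal r * z ∧
        U * Matrix.diagonal r = A * w := by
  classical
  let M : Type := (Fin m → R) ⧸ colSpan A
  let e : Fin m → M := fun i => (colSpan A).mkQ (Pi.single i 1)
  let p0 : Fin m → Pr (R := R) M := fun i => ⟨(0, e i), by simp⟩
  let f : Fin m → (Pr (R := R) M →₀ R) := fun i => Finsupp.single (p0 i) 1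
  have hf : ∀ i, prs M (f i) = e i := by
    intro i
    show prs M (Finsupp.single (p0 i) 1) = e i
    rw [prs_single, op_one, one_smul]
  have hAe : ∀ j, ∑ i, op (A i j) • e i = 0 := by
    intro j
    have : ∑ i, op (A i j) • e i = (colSpan A).mkQ (fun i => A i j) := by
      show ∑ i, op (A i j) • (colSpan A).mkQ (Pi.single i 1) = _
      simp_rw [← map_smul]
      rw [← map_sum]
      congr 1
      funext i'
      rw [Finset.sum_apply, Finset.sum_eq_single i']
      · simp
      · intro b _ hb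
        simp [Pi.single_eq_of_ne hb.symm]
      · intro h; exact absurd (Finset.mem_univ _) h
    rw [this, Submodule.mkQ_apply, Submodule.Quotient.mk_eq_zero]
    refine ⟨Pi.single j 1, fun i => ?_⟩
    rw [Finset.sum_eq_single j]
    · simp
    · intro b _ hb
      simp [Pi.single_eq_of_ne hb]
    · intro h; exact absurd (Finset.mem_univ _) h
  obtain ⟨x', hx'N, hx'⟩ := hRD _ (NN (R := R) M) (NN_rdpure M) m n A
    (fun j => ∑ i, op (A i j) • (D0 (R := R) M).mkQ (f i))
    (by
      intro j
      refine ⟨∑ i, op (A i j) • f i, ?_, ?_⟩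
      · show prs M _ = 0
        rw [map_sum]
        simp_rw [map_smul, hf]
        exact hAe j
      · rw [map_sum]
        simp_rw [map_smul])
    ⟨fun i => (D0 (R := R) M).mkQ (f i), fun j => rfl⟩
  choose κ hκ hκ' using hx'N
  let g : Fin m → (Pr (R := R) M →₀ R) := fun i => f i - κ i
  have hg : ∀ i, prs M (g i) = e i := by
    intro i
    show prs M (f i - κ i) = e i
    have h3 : prs M (κ i) = 0 := hκ i
    rw [map_sub, hf, h3, sub_zero]
  have hgA : ∀ (p : Pr (R := R) M) (j : Fin n), ∃ t : R, ∑ i, g i p * A i j = p.1.1 * t := by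
    intro p j
    have h1 : ∑ i, op (A i j) • g i ∈ D0 (R := R) M := by
      have : (D0 (R := R) M).mkQ (∑ i, op (A i j) • g i) = 0 := by
        rw [map_sum]
        simp_rw [map_smul]
        have : ∀ i, (D0 (R := R) M).mkQ (g i) = (D0 (R := R) M).mkQ (f i) - x' i := by
          intro i
          show (D0 (R := R) M).mkQ (f i - κ i) = _
          rw [map_sub, hκ']
        simp_rw [this, smul_sub]
        rw [Finset.sum_sub_distrib, hx' j, sub_self]
      rwa [Submodule.mkQ_apply, Submodule.Quotient.mk_eq_zero] at this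
    obtain ⟨t, ht⟩ := h1 p
    refine ⟨t, ?_⟩
    rw [← ht, Finsupp.finsetSum_apply]
    refine Finset.sum_congr rfl fun i _ => ?_
    rw [Finsupp.smul_apply, op_smul_eq_mul]
  have hzero : ∀ p : Pr (R := R) M, p.1.1 = 0 → ∀ i, g i p = 0 := by
    intro p hp
    refine hA (fun i => g i p) (fun j => ?_)
    obtain ⟨t, ht⟩ := hgA p j
    rw [ht, hp, zero_mul]
  have hlift : ∀ p : Pr (R := R) M, ∃ u : Fin m → R, (colSpan A).mkQ u = p.1.2 :=
    fun p => (colSpan A).mkQ_surjective _
  choose u hu using hlift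
  have hw : ∀ p : Pr (R := R) M, ∃ w : Fin n → R, ∀ i, u p i * p.1.1 = ∑ j, A i j * w j := by
    intro p
    have h1 : (colSpan A).mkQ (op p.1.1 • u p) = 0 := by
      rw [map_smul, hu]; exact p.2
    rw [Submodule.mkQ_apply, Submodule.Quotient.mk_eq_zero] at h1
    obtain ⟨w, hw⟩ := h1
    refine ⟨w, fun i => ?_⟩
    rw [← hw i]
    simp
  choose w hw using hw
  choose z hz using hgA
  let S : Finset (Pr (R := R) M) :=
    (Finset.univ.biUnion (fun i => (g i).support)).filter (fun p => p.1.1 ≠ 0)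
  have hS : ∀ i, (g i).support ⊆ S := by
    intro i p hp
    refine Finset.mem_filter.2 ⟨Finset.mem_biUnion.2 ⟨i, Finset.mem_univ _, hp⟩, fun h => ?_⟩
    exact (Finsupp.mem_support_iff.1 hp) (hzero p h i)
  let q : Fin S.card → Pr (R := R) M := fun l => (S.equivFin.symm l).1
  have hq : ∀ F : Pr (R := R) M → R, ∑ l, F (q l) = ∑ p ∈ S, F p := by
    intro F
    rw [← Finset.sum_coe_sort S F]
    exact Equiv.sum_comp S.equivFin.symm (fun p : S => F p.1)
  have hs : ∀ i, ∃ t : Fin n → R, ∀ i', ((Pi.single i 1 : Fin m → R) i') -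
      ∑ l, u (q l) i' * g i (q l) = ∑ j, A i' j * t j := by
    intro i
    have h1 : (colSpan A).mkQ ((Pi.single i 1 : Fin m → R) -
        fun i' => ∑ l, u (q l) i' * g i (q l)) = 0 := by
      rw [map_sub, sub_eq_zero]
      have h2 := hg i
      rw [prs_apply] at h2
      have h3 : (g i).sum (fun p x => op x • p.1.2) = ∑ p ∈ S, op (g i p) • p.1.2 := by
        unfold Finsupp.sum
        refine Finset.sum_subset (hS i) fun p _ hp => ?_
        simp only
        rw [Finsupp.notMem_support_iff.1 hp, op_zero, zero_smul]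
      rw [h3] at h2
      show e i = _
      rw [← h2]
      have h4 : (fun i' => ∑ l, u (q l) i' * g i (q l)) = ∑ p ∈ S, op (g i p) • u p := by
        funext i'
        rw [hq (fun p => u p i' * g i p), Finset.sum_apply]
        refine Finset.sum_congr rfl fun p _ => ?_
        rw [Pi.smul_apply, op_smul_eq_mul]
      rw [h4, map_sum]
      refine Finset.sum_congr rfl fun p _ => ?_
      rw [map_smul, hu]
    rw [Submodule.mkQ_apply, Submodule.Quotient.mk_eq_zero] at h1
    exact h1
  choose s hs using hs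
  refine ⟨S.card, fun l => (q l).1.1, Matrix.of fun i l => u (q l) i,
    Matrix.of fun l i => g i (q l), Matrix.of fun j i => s i j, Matrix.of fun l j => z (q l) j,
    Matrix.of fun j l => w (q l) j, ?_, ?_, ?_, ?_⟩
  · intro l
    exact (Finset.mem_filter.1 (S.equivFin.symm l).2).2
  · ext i' i
    rw [Matrix.add_apply, Matrix.mul_apply, Matrix.mul_apply]
    simp only [Matrix.of_apply]
    rw [← hs i i', add_sub_cancel, Matrix.one_apply, Pi.single_apply]
  · ext l j
    rw [Matrix.mul_apply, Matrix.diagonal_mul]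
    simp only [Matrix.of_apply]
    exact hz (q l) j
  · ext i l
    rw [Matrix.mul_diagonal, Matrix.mul_apply]
    simp only [Matrix.of_apply]
    exact hw (q l) i

end

end H354RD
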