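import Mathlib

/-! RD rings, purity, Ore conditions: definitions. -/

set_option autoImplicit false

namespace H354RD

open MulOpposite

section
variable (R : Type) [Ring R]

/-- `N ≤ M` (right modules) is pure: every finite system of `R`-linear equations
`∑_i x_i a_{ij} = y_j` with parameters `y_j ∈ N` that has a solution in `M` has one in `N`. -/
def Pure {M : Type} [AddCommGroup M] [Module Rᵐᵒᵖ M] (N : Submodule Rᵐᵒᵖ M) : Prop :=
  ∀ (m n : ℕ) (A : Matrix (Fin m) (Fin n) R) (y : Fin n → M), (∀ j, y j ∈ N) →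
    (∃ x : Fin m → M, ∀ j, ∑ i, op (A i j) • x i = y j) →
    ∃ x : Fin m → M, (∀ i, x i ∈ N) ∧ ∀ j, ∑ i, op (A i j) • x i = y j

/-- `N ≤ M` (right modules) is relatively divisible: `N ∩ M r = N r` for every `r ∈ R`. -/
def RDPure {M : Type} [AddCommGroup M] [Module Rᵐᵒᵖ M] (N : Submodule Rᵐᵒᵖ M) : Prop :=
  ∀ (r : R) (x : M), op r • x ∈ N → ∃ x' ∈ N, op r • x' = op r • x

/-- `R` is an RD ring: for right modules, every RD-pure submodule is pure. -/
def IsRD : Prop :=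
  ∀ (M : Type) [AddCommGroup M] [Module Rᵐᵒᵖ M] (N : Submodule Rᵐᵒᵖ M), RDPure R N → Pure R N

/-- `aR ∩ bR ≠ 0` for all nonzero `a, b` -/
def RightOre : Prop := ∀ a b : R, a ≠ 0 → b ≠ 0 → ∃ x y : R, a * x = b * y ∧ a * x ≠ 0

/-- `Ra ∩ Rb ≠ 0` for all nonzero `a, b` -/
def LeftOre : Prop := ∀ a b : R, a ≠ 0 → b ≠ 0 → ∃ x y : R, x * a = y * b ∧ x * a ≠ 0

end

end H354RD
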