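import Pool.Agent.H354.RD.Cert

set_option autoImplicit false

namespace H354RD

open MulOpposite nonZeroDivisors

section
variable (R : Type) [Ring R]

/-- `R` embeds in a division ring -/
def EmbedsDivision : Prop :=
  ∃ (D : Type) (_ : DivisionRing D) (f : R →+* D), Function.Injective f

/-- there is a homomorphism to a nonzero ring sending all nonzero elements to units -/
def Inverts : Prop :=
  ∃ (S : Type) (_ : Ring S) (_ : Nontrivial S) (f : R →+* S), ∀ r : R, r ≠ 0 → IsUnit (f r)

/-- no diagonal matrix `Δ` with nonzero entries becomes of the form (column)(row) after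
multiplication on the left by a right invertible matrix `V` with two rows -/
def DiagFull : Prop :=
  ¬ ∃ (n : ℕ) (r : Fin n → R) (V : Matrix (Fin 2) (Fin n) R) (W : Matrix (Fin n) (Fin 2) R)
    (c : Matrix (Fin 2) (Fin 1) R) (κ : Matrix (Fin 1) (Fin n) R),
    (∀ i, r i ≠ 0) ∧ V * W = 1 ∧ V * Matrix.diagonal r = c * κ

end

section
variable {R : Type} [Ring R]

theorem diagFull_of_inverts (h : Inverts R) : DiagFull R := by
  obtain ⟨S, _, _, f, hf⟩ := h
  rintro ⟨n, r, V, W, c, κ, hr, hVW, hV⟩
  choose u hu using fun i => (hf (r i) (hr i))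
  -- `f V = (f c) K` with `K = (f κ) diag(r)⁻¹`
  have h1 : ∀ i l, f (V i l) = f (c i 0) * (f (κ 0 l) * ((u l)⁻¹ : Sˣ)) := by
    intro i l
    have h2 := congrArg f (congrFun (congrFun hV i) l)
    rw [Matrix.mul_diagonal, Matrix.mul_apply] at h2
    simp only [Fin.sum_univ_one, Fin.isValue, map_mul] at h2
    rw [← mul_assoc, ← h2, ← hu l, Units.mul_inv_cancel_right]
  have h3 : ∀ i j, f ((1 : Matrix (Fin 2) (Fin 2) R) i j) =
      f (c i 0) * ∑ l, f (κ 0 l) * ((u l)⁻¹ : Sˣ) * f (W l j) := by
    intro i j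
    rw [← hVW, Matrix.mul_apply, map_sum, Finset.mul_sum]
    refine Finset.sum_congr rfl fun l _ => ?_
    rw [map_mul, h1]
    simp only [mul_assoc]
  have h00 := h3 0 0
  have h01 := h3 0 1
  have h11 := h3 1 1
  simp only [Matrix.one_apply_eq, map_one, ne_eq, zero_ne_one, not_false_eq_true,
    Matrix.one_apply_ne, map_zero, Fin.isValue] at h00 h01 h11
  by_cases hc : c 0 0 = 0
  · rw [hc, map_zero, zero_mul] at h00
    exact one_ne_zero h00
  · obtain ⟨v, hv⟩ := hf _ hc
    rw [← hv] at h01
    have h4 := (Units.mul_right_eq_zero v).1 h01.symm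
    rw [h4, mul_zero] at h11
    exact one_ne_zero h11

theorem leftOre_of_diagFull [IsDomain R] (hRD : IsRD R) (h : DiagFull R) : LeftOre R := by
  intro a b ha hb
  by_contra hcon
  push Not at hcon
  apply h
  let A : Matrix (Fin 2) (Fin 1) R := !![a; b]
  have hA : ∀ w : Fin 2 → R, (∀ j, ∑ i, w i * A i j = 0) → ∀ i, w i = 0 := by
    intro w hw
    have h1 := hw 0
    simp only [Fin.sum_univ_two] at h1
    have h2 : w 0 * a + w 1 * b = 0 := h1
    have h3 : w 0 * a = (-w 1) * b := by rw [neg_mul]; exact eq_neg_of_add_eq_zero_left h2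
    have h4 := hcon _ _ h3
    have h5 : w 0 = 0 := (mul_eq_zero.1 h4).resolve_right ha
    have h6 : w 1 = 0 := by
      rw [h5, zero_mul, zero_add] at h2
      exact (mul_eq_zero.1 h2).resolve_right hb
    intro i
    fin_cases i
    · exact h5
    · exact h6
  obtain ⟨k, r, U, X, s, z, w, hr, h1, -, h3⟩ := cert hRD A hA
  refine ⟨k + 1, Fin.cons 1 r, Matrix.of fun i => Fin.cons (A i 0) (U i),
    Matrix.of (Fin.cons (s 0) X), A, Matrix.of fun i => Fin.cons 1 (w i), ?_, ?_, ?_⟩
  · intro i
    refine Fin.cases ?_ (fun j => ?_) i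
    · simp
    · simpa using hr j
  · ext i j
    rw [Matrix.mul_apply, Fin.sum_univ_succ]
    have h4 := congrFun (congrFun h1 i) j
    rw [Matrix.add_apply, Matrix.mul_apply, Matrix.mul_apply] at h4
    simp only [Fin.sum_univ_one, Fin.isValue] at h4
    simp only [Matrix.of_apply, Fin.cons_zero, Fin.cons_succ]
    rw [add_comm]
    exact h4
  · ext i j
    rw [Matrix.mul_diagonal, Matrix.mul_apply]
    simp only [Fin.sum_univ_one, Fin.isValue, Matrix.of_apply]
    refine Fin.cases ?_ (fun l => ?_) j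
    · simp
    · simp only [Fin.cons_succ]
      have h4 := congrFun (congrFun h3 i) l
      rw [Matrix.mul_diagonal, Matrix.mul_apply] at h4
      simpa using h4

theorem rightOre_of_inverts [IsDomain R] (hRD : IsRD R) (h : Inverts R) : RightOre R := by
  obtain ⟨S, _, _, f, hf⟩ := h
  intro a b ha hb
  by_contra hcon
  push Not at hcon
  let A : Matrix (Fin 1) (Fin 2) R := !![a, b]
  have hA : ∀ w : Fin 1 → R, (∀ j, ∑ i, w i * A i j = 0) → ∀ i, w i = 0 := by
    intro w hw i
    have h1 := hw 0
    simp only [Fin.sum_univ_one, Fin.isValue] at h1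
    have h2 : w 0 * a = 0 := h1
    have h3 := (mul_eq_zero.1 h2).resolve_right ha
    rw [Subsingleton.elim i 0]
    exact h3
  have hinj : ∀ y : Fin 2 → R, a * y 0 + b * y 1 = 0 → y 0 = 0 ∧ y 1 = 0 := by
    intro y hy
    have h3 : a * y 0 = b * (-y 1) := by rw [mul_neg]; exact eq_neg_of_add_eq_zero_left hy
    have h4 := hcon _ _ h3
    have h5 : y 0 = 0 := (mul_eq_zero.1 h4).resolve_left ha
    refine ⟨h5, ?_⟩
    rw [h5, mul_zero, zero_add] at hy
    exact (mul_eq_zero.1 hy).resolve_left hb
  obtain ⟨k, r, U, X, s, z, w, hr, h1, h2, h3⟩ := cert hRD A hA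
  have hA0 : ∀ B : Matrix (Fin 2) (Fin 2) R, A * B = 0 → B = 0 := by
    intro B hB
    have h5 : ∀ j, B 0 j = 0 ∧ B 1 j = 0 := by
      intro j
      have h4 := congrFun (congrFun hB 0) j
      rw [Matrix.mul_apply, Fin.sum_univ_two] at h4
      exact hinj (fun i => B i j) h4
    ext i j
    fin_cases i
    · exact (h5 j).1
    · exact (h5 j).2
  have h6 : (1 : Matrix (Fin 2) (Fin 2) R) = w * z + s * A := by
    have h7 : A * (1 - (w * z + s * A)) = 0 := by
      have h8 : A = A * (w * z) + A * (s * A) := by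
        calc A = 1 * A := (Matrix.one_mul A).symm
          _ = (U * X + A * s) * A := by rw [h1]
          _ = U * (X * A) + A * (s * A) := by
            rw [Matrix.add_mul, Matrix.mul_assoc, Matrix.mul_assoc]
          _ = (U * Matrix.diagonal r) * z + A * (s * A) := by rw [h2, Matrix.mul_assoc]
          _ = A * (w * z) + A * (s * A) := by rw [h3, Matrix.mul_assoc]
      rw [Matrix.mul_sub, Matrix.mul_one, Matrix.mul_add, ← h8, sub_self]
    exact sub_eq_zero.1 (hA0 _ h7)
  choose u hu using fun i => (hf (r i) (hr i))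
  have hz : ∀ l j, f (z l j) = ((u l)⁻¹ : Sˣ) * (f (X l 0) * f (A 0 j)) := by
    intro l j
    have h4 := congrArg f (congrFun (congrFun h2 l) j)
    rw [Matrix.mul_apply, Matrix.diagonal_mul] at h4
    simp only [Fin.sum_univ_one, Fin.isValue, map_mul] at h4
    rw [h4, ← hu l, Units.inv_mul_cancel_left]
  have h9 : ∀ i j, f ((1 : Matrix (Fin 2) (Fin 2) R) i j) =
      ((∑ l, f (w i l) * (((u l)⁻¹ : Sˣ) * f (X l 0))) + f (s i 0)) * f (A 0 j) := by
    intro i j
    rw [h6, Matrix.add_apply, Matrix.mul_apply, Matrix.mul_apply, map_add, map_sum, add_mul,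
      Finset.sum_mul]
    simp only [Fin.sum_univ_one, Fin.isValue, map_mul]
    congr 1
    refine Finset.sum_congr rfl fun l _ => ?_
    rw [hz]
    simp only [mul_assoc]
  have h00 := h9 0 0
  have h01 := h9 0 1
  simp only [Matrix.one_apply_eq, map_one, ne_eq, zero_ne_one, not_false_eq_true,
    Matrix.one_apply_ne, map_zero, Fin.isValue] at h00 h01
  obtain ⟨v, hv⟩ := hf b hb
  have hb1 : f (A 0 1) = v := hv.symm
  rw [hb1] at h01
  have h4 := (Units.mul_left_eq_zero v).1 h01.symm
  rw [h4, zero_mul] at h00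
  exact one_ne_zero h00

theorem embeds_of_leftOre [IsDomain R] (h : LeftOre R) : EmbedsDivision R := by
  have h' : ∀ (r : R) (s : R⁰), ∃ (r' : R) (s' : R⁰), (s' : R) * r = r' * s := by
    intro r s
    by_cases hr : r = 0
    · exact ⟨0, 1, by rw [hr, mul_zero, zero_mul]⟩
    · obtain ⟨x, y, hxy, hx⟩ := h r s hr (nonZeroDivisors.ne_zero s.2)
      have hx0 : x ≠ 0 := fun h => hx (by rw [h, zero_mul])
      exact ⟨y, ⟨x, mem_nonZeroDivisors_of_ne_zero hx0⟩, hxy⟩
  choose num den hnd using h'
  let _ : OreLocalization.OreSet R⁰ := OreLocalization.oreSetOfNoZeroDivisors num den hnd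
  exact ⟨OreLocalization R⁰ R, inferInstance, OreLocalization.numeratorRingHom,
    OreLocalization.numeratorHom_inj (fun x hx => hx.1)⟩

theorem inverts_of_embeds [Nontrivial R] (h : EmbedsDivision R) : Inverts R := by
  obtain ⟨D, _, f, hf⟩ := h
  exact ⟨D, inferInstance, inferInstance, f, fun r hr =>
    IsUnit.mk0 _ (fun h => hr (hf (by rw [h, map_zero])))⟩

theorem embeds_of_rightOre [IsDomain R] (h : RightOre R) : EmbedsDivision R := by
  have : IsDomain Rᵐᵒᵖ := inferInstance
  have h1 : LeftOre Rᵐᵒᵖ := by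
    intro a b ha hb
    obtain ⟨x, y, hxy, hx⟩ := h a.unop b.unop (by simpa using ha) (by simpa using hb)
    refine ⟨op x, op y, ?_, ?_⟩
    · rw [← op_unop a, ← op_unop b, ← op_mul, ← op_mul, hxy]
    · rw [← op_unop a, ← op_mul]
      intro h0
      exact hx (op_injective h0)
  obtain ⟨D, _, f, hf⟩ := embeds_of_leftOre h1
  refine ⟨Dᵐᵒᵖ, inferInstance,
    { toFun := fun x => op (f (op x))
      map_one' := by rw [op_one, map_one, op_one]
      map_mul' := fun x y => by rw [op_mul, map_mul, op_mul]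
      map_zero' := by rw [op_zero, map_zero, op_zero]
      map_add' := fun x y => by rw [op_add, map_add, op_add] }, ?_⟩
  intro x y hxy
  exact op_injective (hf (op_injective hxy))

theorem main [IsDomain R] (hRD : IsRD R) :
    List.TFAE [LeftOre R, RightOre R, LeftOre R ∧ RightOre R, EmbedsDivision R, Inverts R,
      DiagFull R] := by
  tfae_have 1 → 4 := embeds_of_leftOre
  tfae_have 2 → 4 := embeds_of_rightOre
  tfae_have 4 → 5 := inverts_of_embeds
  tfae_have 5 → 6 := diagFull_of_inverts
  tfae_have 6 → 1 := leftOre_of_diagFull hRD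
  tfae_have 5 → 2 := rightOre_of_inverts hRD
  tfae_have 5 → 3 := fun h => ⟨leftOre_of_diagFull hRD (diagFull_of_inverts h),
    rightOre_of_inverts hRD h⟩
  tfae_have 3 → 1 := fun h => h.1
  tfae_finish

end

end H354RD
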